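import Mathlib

set_option autoImplicit false

namespace Pool.Agent.Results.MP_6ac4e5_co.WithinOne

open Finset

/-- `A 0, …, A (m-1)` are pairwise distinct subsets of `{0,…,n-1}` whose pairwise intersection
sizes are pairwise different. -/
def InterDistinct (n m : ℕ) (A : Fin m → Finset ℕ) : Prop :=
  (∀ i, A i ⊆ range n) ∧ Function.Injective A ∧
    ∀ i j k l : Fin m, i < j → k < l → (A i ∩ A j).card = (A k ∩ A l).card → i = k ∧ j = l

/-- `f n`: the largest size of an intersection-distinct family on `n` points. -/
noncomputable def f (n : ℕ) : ℕ := sSup {m : ℕ | ∃ A : Fin m → Finset ℕ, InterDistinct n m A}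

lemma upper (n m : ℕ) (A : Fin m → Finset ℕ) (h : InterDistinct n m A) : m.choose 2 ≤ n := by
  obtain ⟨h1, h2, h3⟩ := h
  have hc := card_product_filter_lt (s := (univ : Finset (Fin m)))
  rw [card_univ, Fintype.card_fin] at hc
  rw [← hc, ← card_range n]
  apply card_le_card_of_injOn (fun p => (A p.1 ∩ A p.2).card)
  · rintro ⟨i, j⟩ hp
    simp only [coe_filter, Set.mem_ofPred_eq] at hp
    simp only [coe_range, Set.mem_Iio]
    by_contra hge
    push Not at hge
    have e : A i ∩ A j = range n :=
      eq_of_subset_of_card_le (inter_subset_left.trans (h1 i)) (by simpa using hge)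
    have ei : A i = range n := Subset.antisymm (h1 i) (e ▸ inter_subset_left)
    have ej : A j = range n := Subset.antisymm (h1 j) (e ▸ inter_subset_right)
    exact hp.2.ne (h2 (ei.trans ej.symm))
  · rintro ⟨i, j⟩ hp ⟨k, l⟩ hq hpq
    simp only [coe_filter, Set.mem_ofPred_eq] at hp hq
    obtain ⟨rfl, rfl⟩ := h3 i j k l hp.2 hq.2 hpq
    rfl

def Q (m i : ℕ) : ℕ := ∑ l ∈ range i, (m - 1 - l)

lemma Q_succ (m i : ℕ) : Q m (i + 1) = Q m i + (m - 1 - i) := sum_range_succ _ _

lemma Q_mono (m : ℕ) {i j : ℕ} (h : i ≤ j) : Q m i ≤ Q m j :=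
  sum_le_sum_of_subset (range_mono h)

lemma Q_top (m : ℕ) : Q m m = m.choose 2 := by
  unfold Q
  rw [sum_range_reflect (fun l => l) m, Nat.choose_two_right, sum_range_id]

lemma lower (n m : ℕ) (hm : 3 ≤ m) (hn : m.choose 2 + m ≤ n + 3) :
    ∃ A : Fin m → Finset ℕ, InterDistinct n m A := by
  let A : Fin m → Finset ℕ := fun i => Ico (i.val - 1) (min (Q m i.val + (m - 2)) n)
  have htop : Q m (m - 2) + 1 = m.choose 2 := by
    have h1 := Q_succ m (m - 2)
    have h2 := Q_succ m (m - 1)
    rw [show m - 2 + 1 = m - 1 by omega] at h1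
    rw [show m - 1 + 1 = m by omega, Q_top] at h2
    omega
  have hval : ∀ i j : Fin m, i < j → (A i ∩ A j).card = Q m i.val + (m - 1 - j.val) := by
    intro i j hij
    have hij' : i.val < j.val := hij
    have hj := j.isLt
    have h1 : Q m i.val ≤ Q m (m - 2) := Q_mono m (by omega)
    have h2 : Q m i.val ≤ Q m j.val := Q_mono m hij'.le
    simp only [A, Ico_inter_Ico, Nat.card_Ico]
    omega
  have hd : ∀ i j k l : Fin m, i < j → k < l →
      (A i ∩ A j).card = (A k ∩ A l).card → i = k ∧ j = l := by
    intro i j k l hij hkl h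
    rw [hval i j hij, hval k l hkl] at h
    have hij' : i.val < j.val := hij
    have hkl' : k.val < l.val := hkl
    have hj := j.isLt
    have hl := l.isLt
    have hik : i.val = k.val := by
      rcases lt_trichotomy i.val k.val with h1 | h1 | h1
      · have := Q_mono m (show i.val + 1 ≤ k.val by omega)
        rw [Q_succ] at this
        omega
      · exact h1
      · have := Q_mono m (show k.val + 1 ≤ i.val by omega)
        rw [Q_succ] at this
        omega
    refine ⟨Fin.ext hik, Fin.ext ?_⟩
    rw [hik] at h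
    omega
  refine ⟨A, ?_, ?_, hd⟩
  · intro i x hx
    simp only [A, mem_Ico] at hx
    rw [mem_range]
    omega
  · have key : ∀ i j : Fin m, i < j → A i ≠ A j := by
      intro i j hij he
      have hij' : i.val < j.val := hij
      have hj := j.isLt
      by_cases h0 : 0 < i.val
      · have := hd ⟨0, by omega⟩ i ⟨0, by omega⟩ j h0 (show 0 < j.val by omega) (by rw [he])
        exact hij.ne this.2
      · by_cases h1 : j.val < m - 1
        · have := hd i ⟨m - 1, by omega⟩ j ⟨m - 1, by omega⟩ (show i.val < m - 1 by omega) h1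
            (by rw [he])
          exact hij.ne this.1
        · have := hd i ⟨1, by omega⟩ ⟨1, by omega⟩ j (show i.val < 1 by omega)
            (show 1 < j.val by omega) (by rw [he, inter_comm])
          have h2 := congrArg Fin.val this.1
          simp only at h2
          omega
    intro i j he
    rcases lt_trichotomy i j with h | h | h
    · exact absurd he (key i j h)
    · exact h
    · exact absurd he.symm (key j i h)

theorem result (n : ℕ) (hn : 1 ≤ n) :
    (f n).choose 2 ≤ n ∧ n + 4 ≤ (f n + 2).choose 2 := by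
  have hbdd : BddAbove {m : ℕ | ∃ A : Fin m → Finset ℕ, InterDistinct n m A} := by
    refine ⟨n + 1, fun m hm => ?_⟩
    obtain ⟨A, hA⟩ := hm
    have h := upper n m A hA
    by_contra hlt
    push Not at hlt
    have h2 : (n + 2).choose 2 ≤ m.choose 2 := Nat.choose_le_choose 2 hlt
    rw [Nat.choose_succ_succ' (n + 1) 1, Nat.choose_one_right] at h2
    omega
  have h2 : 2 ∈ {m : ℕ | ∃ A : Fin m → Finset ℕ, InterDistinct n m A} := by
    refine ⟨![∅, {0}], ?_, ?_, ?_⟩
    · intro i
      fin_cases i
      · simp
      · simp; omega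
    · decide
    · decide
  have h2f : 2 ≤ f n := le_csSup hbdd h2
  constructor
  · obtain ⟨A, hA⟩ := Nat.sSup_mem ⟨2, h2⟩ hbdd
    exact upper n _ A hA
  · by_contra hlt
    push Not at hlt
    rw [Nat.choose_succ_succ' (f n + 1) 1, Nat.choose_one_right] at hlt
    change f n + 1 + (f n + 1).choose 2 < n + 4 at hlt
    have := le_csSup hbdd (lower n (f n + 1) (by omega) (by omega))
    change f n + 1 ≤ f n at this
    omega

end Pool.Agent.Results.MP_6ac4e5_co.WithinOne
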